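import Pool.Agent.Lib.MP_ef2672_gt_Over.LeanIff
import Pool.Agent.Lib.MP_ef2672_gt_Over.FewShort
import Pool.Agent.Lib.MP_ef2672_gt_Over.Auto

/-!
MP_ef2672, Q1: lattices with few short vectors are at most as dense as the Minkowski-Hlawka bound,
and this bound is the limit if and only if nearly optimal lattices can be chosen with few short
vectors.
-/

set_option autoImplicit false

namespace Pool.Agent.Results.MP_ef2672_gt.FewShortVectors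

open Pool.Agent.Lib.MP_ef2672_gt_Tauber Pool.Agent.Lib.EF_h73 Pool.Agent.Lib.MP_ef2672_gt_Over
open MeasureTheory Filter Topology

theorem result :
    (∀ n : ℕ, 0 < n → ∀ A : Matrix (Fin n) (Fin n) ℝ, A.det ≠ 0 → ∀ r : ℝ, 0 < r →
      (volume {x : Fin n → ℝ | ∑ i, x i ^ 2 < r}).toReal ≤
        |A.det| * cov A r * ∑' w : Fin n → ℤ, (max 0 (1 - normSq A w / (4 * r))) ^ ((n : ℝ) / 2)) ∧
    (∀ ε : ℝ, 0 < ε → ∃ δ : ℝ, 0 < δ ∧ ∀ᶠ n : ℕ in atTop, ∀ A : Matrix (Fin n) (Fin n) ℝ,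
      A.det ≠ 0 → (∀ s : ℝ, 1 ≤ s → s < 4 →
        (nShort A (s * minSq A) : ℝ) ≤ (4 / (4 - s)) ^ ((n : ℝ) / 2) * Real.exp (δ * n)) →
      inv A ≤ (c0 + ε) * n) ∧
    (Tendsto c atTop (𝓝 c0) ↔ ∀ ε : ℝ, 0 < ε → ∀ᶠ n : ℕ in atTop,
      ∃ A : Matrix (Fin n) (Fin n) ℝ, A.det ≠ 0 ∧ (1 - ε) * gamma n ≤ inv A ∧
        ∀ s : ℝ, 1 ≤ s → s < 4 →
          (nShort A (s * minSq A) : ℝ) ≤ s ^ ((n : ℝ) / 2) * Real.exp (ε * n)) :=
  ⟨Auto.auto, FewShort.lean_upper, leanIff FewShort.lean_upper⟩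

end Pool.Agent.Results.MP_ef2672_gt.FewShortVectors
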