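import Pool.Agent.Lib.MP_ef2672_gt_Chain.Final

/-!
MP_ef2672, Q1: the number of isometries of a lattice against its Hermite invariant, and Hermite's
constant for lattices with many isometries.
-/

namespace Pool.Agent.Results.MP_ef2672_gt.Isometries

open Pool.Agent.Lib.MP_ef2672_gt_Tauber Pool.Agent.Lib.MP_ef2672_gt_ChainDef Filter Topology

theorem result :
    (∃ C : ℝ, 0 < C ∧ ∀ (n N : ℕ) (A : Matrix (Fin n) (Fin n) ℝ), 3 ≤ n → A.det ≠ 0 →
      (HasIsos N A → (N : ℝ) ≤ (4 * n / inv A) ^ (C * n * Real.log (Real.log n))) ∧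
      (HasCommuting N A → (N : ℝ) ≤ (4 * n / inv A) ^ (C * n / Real.log n))) ∧
    (∀ N : ℕ → ℕ,
      (Tendsto (fun n : ℕ => Real.log (N n) / n) atTop (𝓝 0) →
        Tendsto (fun n => gammaSym (N n) n / gamma n) atTop (𝓝 1)) ∧
      (Tendsto (fun n : ℕ => Real.log (N n) / (n * Real.log (Real.log n))) atTop atTop →
        Tendsto (fun n : ℕ => gammaSym (N n) n / n) atTop (𝓝 0))) ∧
    (∀ N : ℕ → ℕ,
      (Tendsto (fun n : ℕ => Real.log (N n) * Real.log n / n) atTop (𝓝 0) →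
        Tendsto (fun n => gammaComm (N n) n / gamma n) atTop (𝓝 1)) ∧
      (Tendsto (fun n : ℕ => Real.log (N n) * Real.log n / n) atTop atTop →
        Tendsto (fun n : ℕ => gammaComm (N n) n / n) atTop (𝓝 0))) ∧
    (∃ c : ℝ, 0 < c ∧ ∀ n r : ℕ, 0 < n → r ≤ n →
      c * (n : ℝ) ^ (1 - (r : ℝ) / n) ≤ gammaInv r n ∧
        gammaInv r n ≤ 4 * (n : ℝ) ^ (1 - ((r : ℝ) - 1) / n)) :=
  ⟨Pool.Agent.Lib.MP_ef2672_gt_Chain.final_order,
    Pool.Agent.Lib.MP_ef2672_gt_Chain.final_sym,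
    Pool.Agent.Lib.MP_ef2672_gt_Chain.final_comm,
    Pool.Agent.Lib.MP_ef2672_gt_Chain.final_inv⟩

end Pool.Agent.Results.MP_ef2672_gt.Isometries
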