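import Pool.Agent.Lib.MP_ef2672_gt_Chain.Final
import Pool.Agent.Lib.MP_ef2672_gt_Sym.Criterion

/-!
MP_ef2672, Q1: the isometries of a lattice which is nearly optimal for Hermite's constant.
-/

namespace Pool.Agent.Results.MP_ef2672_gt.IsometryGap

open Pool.Agent.Lib.MP_ef2672_gt_Tauber Pool.Agent.Lib.MP_ef2672_gt_ChainDef Filter Topology

theorem result :
    (∀ (n : ℕ) (A : Matrix (Fin n) (Fin n) ℝ), 0 < n → A.det ≠ 0 →
      (∀ U : Matrix (Fin n) (Fin n) ℤ, IsIso A U → inv A ^ n ≤ (pdet U : ℝ) ^ 2 *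
        (gamma (U - 1).rank ^ (U - 1).rank * gamma (n - (U - 1).rank) ^ (n - (U - 1).rank))) ∧
      (∀ D : ℕ, 0 < D → D < n →
        ((n : ℝ) - fixRank {U : Matrix (Fin n) (Fin n) ℤ | IsIso A U ∧ (U - 1).rank ≤ D}) *
          Real.log (n / D) ≤ n * Real.log (4 * n / inv A))) ∧
    (∀ ε : ℝ, 0 < ε → ∃ δ : ℝ, 0 < δ ∧
      (∀ᶠ n : ℕ in atTop, ∀ A : Matrix (Fin n) (Fin n) ℝ, A.det ≠ 0 →
        (limsup c atTop - δ) * n ≤ inv A →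
        (∀ U : Matrix (Fin n) (Fin n) ℤ, IsIso A U →
          Real.binEntropy ((U - 1).rank / n) ≤ 2 / n * Real.log (pdet U) + ε ∧
          (((U - 1).rank : ℝ) ≤ ε * n ∨ ((U.trace : ℤ) : ℝ) ≤ (1 / 2 + ε) * n)) ∧
        (1 - ε) * n ≤ fixRank {U : Matrix (Fin n) (Fin n) ℤ |
          IsIso A U ∧ ((U - 1).rank : ℝ) ≤ (1 / 2 - ε) * n}) ∧
      ((∃ᶠ n : ℕ in atTop, ∃ (A : Matrix (Fin n) (Fin n) ℝ) (U : Matrix (Fin n) (Fin n) ℤ),
        A.det ≠ 0 ∧ (1 - δ) * gamma n ≤ inv A ∧ IsIso A U ∧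
        (2 / n * Real.log (pdet U) + ε < Real.binEntropy ((U - 1).rank / n) ∨
          (ε * n < (U - 1).rank ∧ (1 / 2 + ε) * n < ((U.trace : ℤ) : ℝ)))) →
        ¬ ∃ l : ℝ, Tendsto c atTop (𝓝 l))) := by
  refine ⟨fun n A hn hA => ⟨fun U hU =>
    Pool.Agent.Lib.MP_ef2672_gt_Chain.final_eigen n A U hn hA hU, fun D hD hDn =>
    Pool.Agent.Lib.MP_ef2672_gt_Chain.final_concentration n D A hD hDn hA⟩, fun ε hε => ?_⟩
  obtain ⟨δ₁, hδ₁, h₁⟩ := Pool.Agent.Lib.MP_ef2672_gt_Chain.final_eigen_asym ε hε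
  obtain ⟨δ₂, hδ₂, h₂⟩ := Pool.Agent.Lib.MP_ef2672_gt_Chain.final_gap ε hε
  refine ⟨min δ₁ δ₂ / 2, by have := lt_min hδ₁ hδ₂; positivity, ?_, ?_⟩
  · filter_upwards [h₁, h₂] with n h₁ h₂ A hA hinv
    have hn0 : (0 : ℝ) ≤ n := Nat.cast_nonneg n
    refine ⟨fun U hU => h₁ A U hA (le_trans (mul_le_mul_of_nonneg_right ?_ hn0) hinv) hU,
      h₂ A hA (le_trans (mul_le_mul_of_nonneg_right ?_ hn0) hinv)⟩
    · linarith [min_le_left δ₁ δ₂, lt_min hδ₁ hδ₂]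
    · linarith [min_le_right δ₁ δ₂, lt_min hδ₁ hδ₂]
  · rintro hfreq ⟨l, hl⟩
    have hnear := Pool.Agent.Lib.MP_ef2672_gt_Sym.near_of_tendsto hl (lt_min hδ₁ hδ₂)
    obtain ⟨n, ⟨A, U, hA, hopt, hU, hbad⟩, h3, h4⟩ :=
      (hfreq.and_eventually (h₁.and hnear)).exists
    have hn0 : (0 : ℝ) ≤ n := Nat.cast_nonneg n
    have h5 := h3 A U hA (le_trans (mul_le_mul_of_nonneg_right
      (by linarith [min_le_left δ₁ δ₂]) hn0) (h4 A hopt)) hU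
    rcases hbad with hbad | ⟨hb1, hb2⟩
    · exact absurd h5.1 (not_le.2 hbad)
    · rcases h5.2 with h6 | h6
      · exact absurd h6 (not_le.2 hb1)
      · exact absurd h6 (not_le.2 hb2)

end Pool.Agent.Results.MP_ef2672_gt.IsometryGap
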