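import Pool.Agent.Lib.LPH.Limits

/-!
MP_ef2672, Q1: a complete hierarchy of linear programs for Hermite's constant. Level `1` is the
Cohn-Elkies bound, level `k → ∞` gives `γ_n`, and level `n²` is asymptotically exact.
-/

namespace Pool.Agent.Results.MP_ef2672_gt.LPHierarchy

open Filter Topology Pool.Agent.Lib.MP_ef2672_gt_Tauber Pool.Agent.Lib.LPH

theorem result :
    (∀ k n : ℕ, 0 < k → 0 < n → ∀ (F : (Fin k → EuclideanSpace ℝ (Fin n)) → ℝ) (r : ℝ),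
      Adm k n F r → gamma n ≤ val k n F r) ∧
    (∃ C : ℝ, ∀ k n : ℕ, 0 < k → 0 < n → gamma n ≤ lp k n ∧
      lp k n ≤ gamma n * Real.exp (C * (n * Real.log (n + k) / k))) ∧
    ∀ l : ℝ, Tendsto (fun n : ℕ => gamma n / n) atTop (𝓝 l) ↔
      Tendsto (fun n : ℕ => lp (n ^ 2) n / n) atTop (𝓝 l) := by
  obtain ⟨C, -, hC⟩ := lp_bounds
  exact ⟨fun k n hk hn F r h => gamma_le_val hk hn h, ⟨C, hC⟩, limit_iff⟩

end Pool.Agent.Results.MP_ef2672_gt.LPHierarchy
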