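import Pool.Agent.Lib.MP_ef2672_gt_Over.Sparse

/-!
MP_ef2672, Q1: the mean of the truncated number of lattice points near a point, and sparse
lattices.
-/

set_option autoImplicit false

namespace Pool.Agent.Results.MP_ef2672_gt.LatticePointMeans

open Pool.Agent.Lib.MP_ef2672_gt_Tauber Pool.Agent.Lib.MP_ef2672_gt_Over Filter Topology

theorem result :
    (∀ n : ℕ, 0 < n → ∀ A : Matrix (Fin n) (Fin n) ℝ, A.det ≠ 0 → ∀ r : ℝ, 0 < r →
      (r / gamma n) ^ ((n : ℝ) / 2) ≤ 9 * n * |A.det| * meanMin A r (max 1 (nShort A r))) ∧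
    (∀ f : ℕ → ℝ, limsup (sparse f) atTop = limsup c atTop ∧
      ∀ l : ℝ, Tendsto (sparse f) atTop (𝓝 l) ↔ Tendsto c atTop (𝓝 l)) :=
  ⟨mean_statement, sparse_statement⟩

end Pool.Agent.Results.MP_ef2672_gt.LatticePointMeans
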