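import Pool.Agent.Lib.LPX.Rate
import Pool.Agent.Lib.LPX.RateUp
import Pool.Agent.Lib.LPX.RateDens

/-!
MP_ef2672, Q1: the linear programming (Cohn-Elkies) bound for Hermite's constant is
`N / π² + O(√N log N)`: some functions give this bound, and no function gives more.
-/

namespace Pool.Agent.Results.MP_ef2672_gt.LinearProgrammingLimit

open Filter Topology Real MeasureTheory Pool.Agent.Lib.MP_ef2672_gt_Tauber Pool.Agent.LPX
open Pool.Agent.Lib.KL.Pack (Delta)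

theorem result :
    (∀ (N : ℕ) (F : EuclideanSpace ℝ (Fin N) → ℝ) (r : ℝ), 0 < N → Adm N F r →
      gamma N ≤ val N F r ∧
      Delta N ≤ volume.real (Metric.ball (0 : EuclideanSpace ℝ (Fin N)) 1) *
        (val N F r / 4) ^ ((N : ℝ) / 2)) ∧
    (∃ C : ℝ, ∀ N : ℕ, 2 ≤ N →
      (∃ (F : EuclideanSpace ℝ (Fin N) → ℝ) (r : ℝ), Adm N F r ∧
        val N F r ≤ N / π ^ 2 + C * √N * log N) ∧
      ∀ (F : EuclideanSpace ℝ (Fin N) → ℝ) (r : ℝ), Adm N F r →
        N / π ^ 2 - 2 * √(N * log N) ≤ val N F r) ∧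
    Tendsto (fun N : ℕ => lp N / N) atTop (𝓝 (1 / π ^ 2)) := by
  refine ⟨fun N F r hN h => ⟨gamma_le_val hN h, (Delta_le_lp hN).trans ?_⟩, ?_, lpx8⟩
  · have h0 : 0 ≤ lp N := le_lp fun F r hF => hF.val_nonneg
    have h1 : lp N ≤ val N F r := lp_le h
    gcongr
  · obtain ⟨C, hC⟩ := upper_rate
    refine ⟨C + 1, fun N hN => ⟨?_, fun F r h => rate_low hN h⟩⟩
    have hN2 : (2 : ℝ) ≤ N := by exact_mod_cast hN
    have hlog : 0 < log N := log_pos (by linarith)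
    have hs : 0 < √(N : ℝ) * log N := by positivity
    have h1 : lp N < N / π ^ 2 + (C + 1) * √N * log N := by
      refine (hC N hN).trans_lt ?_
      nlinarith
    obtain ⟨F₀, r₀, hF₀⟩ := exists_adm N
    have hne : {t : ℝ | ∃ (F : EuclideanSpace ℝ (Fin N) → ℝ) (r : ℝ), Adm N F r ∧
        t = val N F r}.Nonempty := ⟨_, F₀, r₀, hF₀, rfl⟩
    obtain ⟨t, ⟨F, r, hF, rfl⟩, ht⟩ := exists_lt_of_csInf_lt hne h1
    exact ⟨F, r, hF, ht.le⟩

end Pool.Agent.Results.MP_ef2672_gt.LinearProgrammingLimit
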