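import Pool.Agent.Lib.EF_h73.Final

/-!
MP_ef2672, Q1: Hermite's constants in different dimensions satisfy a relative entropy inequality:
an excess of `γ_n / n` over the Minkowski-Hlawka value `1/(2πe)` persists in all dimensions up to
`(c_n / c_0) n`.
-/

namespace Pool.Agent.Results.MP_ef2672_gt.RelativeEntropy

open Pool.Agent.Lib.MP_ef2672_gt_Tauber Pool.Agent.Lib.EF_h73 Filter Topology

theorem result :
    (∀ n m : ℕ, 0 < n → n ≤ m → (m : ℝ) * c0 ≤ n * c n →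
      relEntropy ((n : ℝ) / m) (c0 / c n) ≤ Real.log (c m / c0)) ∧
    (c0 < limsup c atTop → ∀ δ : ℝ, δ < 1 - c0 / limsup c atTop →
      ∃ η : ℝ, 0 < η ∧ ∃ᶠ N : ℕ in atTop,
        δ * N ≤ {m : ℕ | 0 < m ∧ m ≤ N ∧ (1 + η) * c0 ≤ c m}.ncard) ∧
    (∀ (S : Set ℕ) (r : ℝ), 1 ≤ r →
      (∀ᶠ n : ℕ in atTop, ∃ s ∈ S, n ≤ s ∧ (s : ℝ) ≤ r * n) →
      Tendsto c (atTop ⊓ 𝓟 S) (𝓝 c0) → limsup c atTop ≤ r * c0) :=
  ⟨fun _ _ hn hnm h => relEntropy_le hn hnm h, fun hl δ hδ => density δ hδ hl,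
    fun S r hr hS hlim => thin S r hr hS hlim⟩

end Pool.Agent.Results.MP_ef2672_gt.RelativeEntropy
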