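import Pool.Agent.Lib.MP_ef2672_gt_Tauber.Main

/-!
MP_ef2672, Q1: convergence of `γ_n / n` along a thin set of dimensions suffices.
-/

namespace Pool.Agent.Results.MP_ef2672_gt.ThinSets

open Pool.Agent.Lib.MP_ef2672_gt_Tauber Filter Topology

theorem result :
    ∀ (S : Set ℕ) (l : ℝ),
      (∀ ε : ℝ, 0 < ε → ∀ᶠ n : ℕ in atTop, ∃ s ∈ S, n ≤ s ∧ (s : ℝ) ≤ (1 + ε) * n) →
      Tendsto c (atTop ⊓ 𝓟 S) (𝓝 l) → Tendsto c atTop (𝓝 l) :=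
  main.2.1

end Pool.Agent.Results.MP_ef2672_gt.ThinSets
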